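import Mathlib
import Pool.Agent.H39.Q1.HideP
import Pool.Agent.H75.TwoArm.Exit
import Pool.Agent.H75.TwoArm.Strand

set_option autoImplicit false
open Finset

/-! # A cluster at a corner is surrounded by a path of the other colour -/

namespace Pool.Agent.H2.Q1

open Pool.Agent.H75.Perc Pool.Agent.H75.TwoArm Pool.Agent.H75.TwoArm.DecayAux
open Pool.Agent.H39.Q1 Pool.Agent.H75.TwoArm.ExitAux

variable {ω L : Finset (ℤ × ℤ)}

/-! ### The walk along the boundary of a cluster -/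

lemma step_co {y : ℤ × ℤ} (hy : lab y ∈ L) :
    Co (ω ∩ L) (vx y) (vx (nx ω y)) ∧ Co (du L ω) (fi y) (fi (nx ω y)) := by
  unfold nx
  split_ifs with h
  · have h1 := Pool.Agent.H75.Perc.vx_nxO y
    refine ⟨Relation.ReflTransGen.single ⟨h1.1, ?_⟩, ?_⟩
    · rw [h1.2]; exact mem_inter.2 ⟨h, hy⟩
    · rw [Pool.Agent.H75.TwoArm.StrandAux.fi_nxO]; exact Co.refl _ _
  · have h1 := Pool.Agent.H75.TwoArm.StrandAux.fi_nxC y
    refine ⟨?_, Relation.ReflTransGen.single ⟨h1.1, ?_⟩⟩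
    · rw [Pool.Agent.H75.TwoArm.StrandAux.vx_nxC]; exact Co.refl _ _
    · exact mem_du_of (by
        have : fi y + fi (nxC y) - (1, 1) = lab y := by rw [h1.2]; simp
        rw [this]; exact hy) (by
        have : fi y + fi (nxC y) - (1, 1) = lab y := by rw [h1.2]; simp
        rw [this]; exact h)

/-- forward walk from an entry corner to an exit corner -/
lemma walk_fwd {r : ℤ × ℤ} (h1 : plab r ∉ L) (h2 : lab r ∈ L) : ∃ z, plab z ∈ L ∧ lab z ∉ L ∧
    Co (ω ∩ L) (vx r) (vx z) ∧ Co (du L ω) (fi r) (fi z) := by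
  classical
  have hex : ∃ j : ℕ, lab ((nx ω)^[j] r) ∉ L := by
    obtain ⟨M, hM⟩ := exists_period ω r
    refine ⟨M - 1, ?_⟩
    have h3 := plab_nx ω ((nx ω)^[M - 1] r)
    rw [← Function.iterate_succ_apply' (nx ω), Nat.succ_eq_add_one,
      Nat.sub_add_cancel hM.pos] at h3
    have h4 : (nx ω)^[M] r = r := hM.per
    rw [h4] at h3
    rw [← h3]; exact h1
  have hmin : ∀ i < Nat.find hex, lab ((nx ω)^[i] r) ∈ L := fun i hi => by
    have := Nat.find_min hex hi
    exact not_not.1 this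
  have hpos : 0 < Nat.find hex := by
    rcases Nat.eq_zero_or_pos (Nat.find hex) with h | h
    · exfalso
      have h3 := Nat.find_spec hex
      rw [h] at h3
      exact h3 h2
    · exact h
  have key : ∀ i ≤ Nat.find hex, Co (ω ∩ L) (vx r) (vx ((nx ω)^[i] r)) ∧
      Co (du L ω) (fi r) (fi ((nx ω)^[i] r)) := by
    intro i
    induction i with
    | zero => intro _; exact ⟨Co.refl _ _, Co.refl _ _⟩
    | succ i ih =>
      intro hi
      obtain ⟨a, b⟩ := ih (by omega)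
      have h3 := step_co (ω := ω) (hmin i (by omega))
      rw [Function.iterate_succ_apply']
      exact ⟨a.trans h3.1, b.trans h3.2⟩
  refine ⟨(nx ω)^[Nat.find hex] r, ?_, Nat.find_spec hex, key _ le_rfl⟩
  have h3 := plab_nx ω ((nx ω)^[Nat.find hex - 1] r)
  rw [← Function.iterate_succ_apply' (nx ω), Nat.succ_eq_add_one, Nat.sub_add_cancel hpos] at h3
  rw [h3]
  exact hmin _ (by omega)

/-- backward walk -/
lemma walk_bwd {r : ℤ × ℤ} (h1 : lab r ∉ L) (h2 : plab r ∈ L) : ∃ z, lab z ∈ L ∧ plab z ∉ L ∧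
    Co (ω ∩ L) (vx r) (vx z) ∧ Co (du L ω) (fi r) (fi z) := by
  classical
  have hex : ∃ j : ℕ, plab ((pv ω)^[j] r) ∉ L := by
    obtain ⟨k, hk⟩ := nx_eq_pv ω r 1
    refine ⟨k, ?_⟩
    rw [← hk]
    simp only [Function.iterate_one]
    rw [plab_nx]; exact h1
  have hmin : ∀ i < Nat.find hex, plab ((pv ω)^[i] r) ∈ L := fun i hi => by
    have := Nat.find_min hex hi
    exact not_not.1 this
  have hpos : 0 < Nat.find hex := by
    rcases Nat.eq_zero_or_pos (Nat.find hex) with h | h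
    · exfalso
      have h3 := Nat.find_spec hex
      rw [h] at h3
      exact h3 h2
    · exact h
  have key : ∀ i ≤ Nat.find hex, Co (ω ∩ L) (vx r) (vx ((pv ω)^[i] r)) ∧
      Co (du L ω) (fi r) (fi ((pv ω)^[i] r)) := by
    intro i
    induction i with
    | zero => intro _; exact ⟨Co.refl _ _, Co.refl _ _⟩
    | succ i ih =>
      intro hi
      obtain ⟨a, b⟩ := ih (by omega)
      have h4 := hmin i (by omega)
      rw [← lab_pv ω] at h4
      have h3 := step_co (ω := ω) h4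
      rw [nx_pv] at h3
      rw [Function.iterate_succ_apply']
      exact ⟨a.trans h3.1.symm, b.trans h3.2.symm⟩
  refine ⟨(pv ω)^[Nat.find hex] r, ?_, Nat.find_spec hex, key _ le_rfl⟩
  have h3 := lab_pv ω ((pv ω)^[Nat.find hex - 1] r)
  rw [← Function.iterate_succ_apply' (pv ω), Nat.succ_eq_add_one, Nat.sub_add_cancel hpos] at h3
  rw [h3]
  exact hmin _ (by omega)

/-! ### Corners -/

lemma corner_eq (z : ℤ × ℤ) : vx z + fi z = z := by
  obtain ⟨a, b⟩ := z
  unfold vx fi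
  refine Prod.ext ?_ ?_ <;> simp only [Prod.fst_add, Prod.snd_add] <;> omega

/-- the unit square of a corner in the doubled grid -/
lemma corner_sq (z : ℤ × ℤ) : ∃ s1 s2 : ℤ, (s1 = 1 ∨ s1 = -1) ∧ (s2 = 1 ∨ s2 = -1) ∧
    nd false (fi z) = nd true (vx z) + (s1, s2) ∧
    ((lab z = nd true (vx z) + (s1, 0) ∧ plab z = nd true (vx z) + (0, s2)) ∨
      (lab z = nd true (vx z) + (0, s2) ∧ plab z = nd true (vx z) + (s1, 0))) := by
  obtain ⟨a, b⟩ := z
  have h1 : a % 2 = 0 ∨ a % 2 = 1 := by omega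
  have h2 : b % 2 = 0 ∨ b % 2 = 1 := by omega
  rw [nd_false, nd_true]
  unfold vx fi lab plab
  rcases h1 with h1 | h1 <;> rcases h2 with h2 | h2
  · refine ⟨-1, -1, Or.inr rfl, Or.inr rfl, ?_, Or.inr ⟨?_, ?_⟩⟩ <;> simp only [h1, h2, if_true] <;>
      refine Prod.ext ?_ ?_ <;> simp only [Prod.fst_add, Prod.snd_add] <;> omega
  · refine ⟨-1, 1, Or.inr rfl, Or.inl rfl, ?_, Or.inl ⟨?_, ?_⟩⟩ <;>
      simp only [h1, h2, if_true, one_ne_zero, if_false] <;>
      refine Prod.ext ?_ ?_ <;> simp only [Prod.fst_add, Prod.snd_add] <;> omega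
  · refine ⟨1, -1, Or.inl rfl, Or.inr rfl, ?_, Or.inl ⟨?_, ?_⟩⟩ <;>
      simp only [h1, h2, if_true, one_ne_zero, if_false] <;>
      refine Prod.ext ?_ ?_ <;> simp only [Prod.fst_add, Prod.snd_add] <;> omega
  · refine ⟨1, 1, Or.inl rfl, Or.inl rfl, ?_, Or.inr ⟨?_, ?_⟩⟩ <;>
      simp only [h1, h2, one_ne_zero, if_false] <;>
      refine Prod.ext ?_ ?_ <;> simp only [Prod.fst_add, Prod.snd_add] <;> omega

/-- both kinds of walks -/
lemma walk {r : ℤ × ℤ} (h : (plab r ∉ L ∧ lab r ∈ L) ∨ (lab r ∉ L ∧ plab r ∈ L)) : ∃ z, z ≠ r ∧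
    ((plab z ∉ L ∧ lab z ∈ L) ∨ (lab z ∉ L ∧ plab z ∈ L)) ∧
    Co (ω ∩ L) (vx r) (vx z) ∧ Co (du L ω) (fi r) (fi z) := by
  rcases h with ⟨h1, h2⟩ | ⟨h1, h2⟩
  · obtain ⟨z, a, b, c⟩ := walk_fwd (ω := ω) h1 h2
    exact ⟨z, fun h => by rw [h] at a; exact h1 a, Or.inr ⟨b, a⟩, c⟩
  · obtain ⟨z, a, b, c⟩ := walk_bwd (ω := ω) h1 h2
    exact ⟨z, fun h => by rw [h] at a; exact h1 a, Or.inl ⟨b, a⟩, c⟩

section chart

variable {ε x0 y0 h : ℤ}

/-! ### The crossing lemma -/

/-- points above `g` on the left wall line -/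
def Ext (ε x0 y0 v : ℤ) (z : ℤ × ℤ) : Prop :=
  (cU ε x0 y0 z = 0 ∨ cU ε x0 y0 z = -1) ∧ v ≤ cV ε x0 y0 z

lemma ext_path (hε : ε = 1 ∨ ε = -1) {g : ℤ × ℤ} (hg : cU ε x0 y0 g = 0) (n : ℕ) :
    Relation.ReflTransGen (fun a b : ℤ × ℤ => IsUnit4 (b - a) ∧ Ext ε x0 y0 (cV ε x0 y0 g) b) g
      (g.1 - n, g.2 + ε * n) := by
  induction n with
  | zero =>
    have : ((g.1 - ((0 : ℕ) : ℤ), g.2 + ε * ((0 : ℕ) : ℤ)) : ℤ × ℤ) = g := by
      refine Prod.ext ?_ ?_ <;> simp
    rw [this]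
  | succ n ih =>
    refine (ih.tail (c := (g.1 - n - 1, g.2 + ε * n)) ⟨?_, ?_, ?_⟩).tail ⟨?_, ?_, ?_⟩
    · unfold IsUnit4; right; right; left
      refine Prod.ext ?_ ?_ <;> simp
    · unfold cU cx cy at hg ⊢
      simp only
      rcases hε with rfl | rfl <;> right <;> omega
    · unfold cU cx cy at hg
      unfold cV cx cy
      simp only
      rcases hε with rfl | rfl <;> omega
    · unfold IsUnit4
      simp only [Prod.mk_sub_mk, Prod.mk.injEq]
      push_cast
      rcases hε with rfl | rfl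
      · right; left; constructor <;> ring
      · right; right; right; constructor <;> ring
    · unfold cU cx cy at hg ⊢
      simp only
      push_cast
      rcases hε with rfl | rfl <;> left <;> omega
    · unfold cU cx cy at hg
      unfold cV cx cy
      simp only
      push_cast
      rcases hε with rfl | rfl <;> omega

/-- A cluster which joins the left wall (below `g`) to the floor separates `g` from the wall points
below it and from the floor points on the left of its floor points. -/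
theorem wall_cross (hε : ε = 1 ∨ ε = -1)
    (hL1 : ∀ l ∈ L, 1 ≤ cU ε x0 y0 l ∧ 1 ≤ cV ε x0 y0 l)
    {u t g f : ℤ × ℤ} (huU : cU ε x0 y0 (nd true u) = 0) (huV : 0 ≤ cV ε x0 y0 (nd true u))
    (hmax : ∀ x, Co (ω ∩ L) u x → cU ε x0 y0 (nd true x) = 0 →
      cV ε x0 y0 (nd true x) ≤ cV ε x0 y0 (nd true u))
    (hut : Co (ω ∩ L) u t) (ht : cV ε x0 y0 (nd true t) = 0)
    (hgU : cU ε x0 y0 (nd false g) = 0)
    (hgV : cV ε x0 y0 (nd false g) = cV ε x0 y0 (nd true u) + 2)
    (hgf : Co (du L ω) g f)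
    (hf : (cU ε x0 y0 (nd false f) = 0 ∧ cV ε x0 y0 (nd false f) < cV ε x0 y0 (nd true u)) ∨
      (cV ε x0 y0 (nd false f) = 0 ∧ cU ε x0 y0 (nd false f) < cU ε x0 y0 (nd true t))) :
    False := by
  have hHt : ∀ x y, IsUnit4 (y - x) → x + y ∈ ω ∩ L →
      0 + 1 ≤ cU ε x0 y0 (el true x y) ∧ 0 + 1 ≤ cV ε x0 y0 (el true x y) := by
    intro x y _ hxy
    have := hL1 _ (mem_inter.1 hxy).2
    rw [el_true]; omega
  have hHf : ∀ x y, IsUnit4 (y - x) → x + y ∈ du L ω →
      0 + 1 ≤ cU ε x0 y0 (el false x y) ∧ 0 + 1 ≤ cV ε x0 y0 (el false x y) := by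
    intro x y _ hxy
    have := hL1 _ (of_mem_du hxy).1
    rw [el_false]; omega
  have hlowt : ∀ z, PS true (ω ∩ L) u z → 0 ≤ cU ε x0 y0 z ∧ 0 ≤ cV ε x0 y0 z := fun z hz =>
    PS_low hε hHt ⟨by omega, by omega⟩ hz
  have hlowf : ∀ z, PS false (du L ω) g z → 0 ≤ cU ε x0 y0 z ∧ 0 ≤ cV ε x0 y0 z := fun z hz =>
    PS_low hε hHf ⟨by omega, by omega⟩ hz
  set k : ℤ × ℤ := ((nd true u).1 - 1, (nd true u).2 - ε) with hk
  have hkU : cU ε x0 y0 k = cU ε x0 y0 (nd true u) - 2 := by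
    rw [hk]; unfold cU cx cy; simp only; rcases hε with rfl | rfl <;> ring
  have hkV : cV ε x0 y0 k = cV ε x0 y0 (nd true u) := by
    rw [hk]; unfold cV cx cy; simp only; rcases hε with rfl | rfl <;> ring
  have hkg : King (nd true u - k) := by
    rw [hk]; unfold King
    simp only [Prod.fst_sub, Prod.snd_sub]
    rcases hε with rfl | rfl <;> omega
  -- the points of the first path
  have hR1 : Relation.ReflTransGen (fun a b : ℤ × ℤ => King (b - a) ∧
      (PS true (ω ∩ L) u b ∨ b = k)) k (nd true t) :=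
    (Relation.ReflTransGen.single (b := nd true u) ⟨hkg, Or.inl PS.self⟩).trans
      (rtg_mono (fun a b h1 => ⟨h1.1.king, Or.inl h1.2⟩) (lift_PS hut))
  obtain ⟨m, P, hP0, hPm, hPs⟩ := exists_seq hR1
  obtain ⟨N, hN0, hN⟩ := path_bound P m
  set ch : ℤ × ℤ → ℤ × ℤ := fun z => (cx x0 z, cy ε y0 z) with hch
  set S1 : ℤ × ℤ → Prop := fun z => (PS true (ω ∩ L) u z ∨ z = k) ∧ -N ≤ z.1 with hS1
  set S2 : ℤ × ℤ → Prop := fun z => PS false (du L ω) g z ∨
    Ext ε x0 y0 (cV ε x0 y0 (nd false g)) z with hS2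
  have hS1r : Relation.ReflTransGen (fun a b : ℤ × ℤ => King (b - a) ∧ S1 b) k (nd true t) := by
    have h3 : ∀ i ≤ m, Relation.ReflTransGen (fun a b : ℤ × ℤ => King (b - a) ∧ S1 b)
        (P 0) (P i) := by
      intro i
      induction i with
      | zero => intro _; exact Relation.ReflTransGen.refl
      | succ i ih =>
        intro hi
        have h4 := hPs i (by omega)
        exact (ih (by omega)).tail ⟨h4.1, h4.2, (hN (i + 1) hi).1.1⟩
    have h5 := h3 m le_rfl
    rwa [hP0, hPm] at h5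
  have hS1k : S1 k := ⟨Or.inr rfl, by
    have := (hN 0 (by omega)).1.1
    rwa [hP0] at this⟩
  -- the second path
  obtain ⟨n, hn⟩ : ∃ n : ℕ, (nd false g).1 - n < -N := ⟨((nd false g).1 + N + 1).toNat + 1, by
    have := Int.self_le_toNat ((nd false g).1 + N + 1)
    push_cast; omega⟩
  set q : ℤ × ℤ := ((nd false g).1 - n, (nd false g).2 + ε * n) with hq
  have hgf' : Co (du L ω) f g := hgf.symm
  have hS2r : Relation.ReflTransGen (fun a b : ℤ × ℤ => IsUnit4 (b - a) ∧ S2 b) (nd false f) q := by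
    have h3 : Relation.ReflTransGen (fun a b : ℤ × ℤ => IsUnit4 (b - a) ∧ S2 b) (nd false f)
        (nd false g) := rtg_mono (fun a b h1 => ⟨h1.1, Or.inl (h1.2.congr hgf)⟩) (lift_PS hgf')
    exact h3.trans (rtg_mono (fun a b h1 => ⟨h1.1, Or.inr h1.2⟩) (ext_path hε hgU n))
  have hS2f : S2 (nd false f) := Or.inl (Or.inl ⟨f, hgf, rfl⟩)
  set T1 : ℤ × ℤ → Prop := fun w => ∃ z, S1 z ∧ ch z = w with hT1
  set T2 : ℤ × ℤ → Prop := fun w => ∃ z, S2 z ∧ ch z = w with hT2
  have hU1 : ∀ z, S1 z → (0 ≤ cU ε x0 y0 z ∧ 0 ≤ cV ε x0 y0 z) ∨ z = k := by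
    rintro z ⟨hz | hz, -⟩
    · exact Or.inl (hlowt z hz)
    · exact Or.inr hz
  have hU2 : ∀ z, S2 z → -1 ≤ cU ε x0 y0 z ∧ 0 ≤ cV ε x0 y0 z := by
    rintro z (hz | hz)
    · have := hlowf z hz; omega
    · unfold Ext at hz; omega
  have hlf := hlowf (nd false f) (Or.inl ⟨f, hgf, rfl⟩)
  have hlt := hlowt (nd true t) (Or.inl ⟨t, hut, rfl⟩)
  have key := wedge_cross (S1 := T1) (S2 := T2) (r := ch k) (s := ch (nd true t))
    (p := ch (nd false f)) (q := ch q)
    (rtg_map ch (fun a b hab => ⟨king_chart hε hab.1, b, hab.2, rfl⟩) hS1r)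
    ⟨k, hS1k, rfl⟩
    (rtg_map ch (fun a b hab => ⟨unit_chart hε hab.1, b, hab.2, rfl⟩) hS2r)
    ⟨nd false f, hS2f, rfl⟩
    (by
      rintro w ⟨z, hz, rfl⟩
      change cU ε x0 y0 k ≤ cU ε x0 y0 z
      have := hU2 z hz
      omega)
    (by
      rintro w ⟨z, hz, rfl⟩
      change cV ε x0 y0 (nd true t) ≤ cV ε x0 y0 z
      have := hU2 z hz
      omega)
    (by
      rintro w ⟨z, hz, rfl⟩ hw
      change cx x0 z = cx x0 (nd false f) at hw
      change cy ε y0 (nd false f) ≤ cy ε y0 z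
      rcases hU1 z hz with h3 | rfl
      · unfold cU cV at h3 hf
        omega
      · exfalso
        unfold cU at hkU huU hf hlf
        unfold cV at hkV huV hf hlf
        omega)
    (by
      rintro w ⟨z, hz, rfl⟩ hw
      exfalso
      change cx x0 z = cx x0 q at hw
      have h3 := hz.2
      unfold cx at hw
      rw [hq] at hw
      simp only at hw
      omega)
    (by
      change cx x0 k ≤ cx x0 (nd false f)
      unfold cU at hkU huU hf hlf
      unfold cV at hkV huV hf hlf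
      omega)
    (by
      change cx x0 (nd false f) ≤ cx x0 (nd true t)
      unfold cU at hf hlf hlt
      unfold cV at hf hlf hlt ht
      omega)
  obtain ⟨w, ⟨z, hz, hzw⟩, z', hz', hzw'⟩ := key
  have : z = z' := chart_inj hε (hzw.trans hzw'.symm)
  subst this
  rcases hz.1 with h3 | h3
  · rcases hz' with h4 | h4
    · obtain ⟨a, b, a', b', g1, g2, g3, g4, g5⟩ := PS_opp (by decide) h3 h4
      have e1 : ps true ω (el true a b) := by
        unfold ps; rw [el_true]; exact ⟨fun _ => rfl, fun _ => (mem_inter.1 g2).1⟩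
      have e2 : ps false ω (el false a' b') := by
        unfold ps; rw [el_false]
        exact ⟨fun h5 => absurd h5 (of_mem_du g4).2, fun h5 => absurd h5 (by decide)⟩
      rw [← g5] at e2
      exact not_both_ps (by decide) e1 e2 Iff.rfl
    · unfold Ext at h4
      have h5 := hlowt z h3
      have h6 : cU ε x0 y0 z = 0 := by omega
      rcases h3 with ⟨x, hx, rfl⟩ | ⟨x, y, hx, hxy, hm, rfl⟩
      · have := hmax x hx h6
        omega
      · have := hHt x y hxy hm
        omega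
  · have := hU2 z hz'
    rw [h3] at this
    omega

/-! ### The theorem -/

/-- the colour `true` -/
theorem surround_true (hε : ε = 1 ∨ ε = -1)
    (hL1 : ∀ l ∈ L, 1 ≤ cU ε x0 y0 l ∧ 1 ≤ cV ε x0 y0 l)
    (hL2 : ∀ l : ℤ × ℤ, (l.1 + l.2) % 2 = 1 → 1 ≤ cU ε x0 y0 l → 1 ≤ cV ε x0 y0 l →
      cU ε x0 y0 l < 2 * h → cV ε x0 y0 l < 2 * h → l ∈ L) {u t : ℤ × ℤ}
    (huU : cU ε x0 y0 (nd true u) = 0) (huV : 0 ≤ cV ε x0 y0 (nd true u))
    (hut : Co (ω ∩ L) u t) (ht : cV ε x0 y0 (nd true t) = 0)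
    (hsm : ∀ x, Co (ω ∩ L) u x → cU ε x0 y0 (nd true x) < 2 * h ∧
      cV ε x0 y0 (nd true x) < 2 * h) :
    ∃ g f, Co (du L ω) g f ∧ cU ε x0 y0 (nd false g) = 0 ∧ cV ε x0 y0 (nd false f) = 0 ∧
      (∀ x, Co (ω ∩ L) u x → cU ε x0 y0 (nd true x) = 0 →
        cV ε x0 y0 (nd true x) < cV ε x0 y0 (nd false g)) ∧
      (∀ x, Co (ω ∩ L) u x → cV ε x0 y0 (nd true x) = 0 →
        cU ε x0 y0 (nd true x) < cU ε x0 y0 (nd false f)) ∧
      cV ε x0 y0 (nd false g) ≤ 2 * h ∧ cU ε x0 y0 (nd false f) ≤ 2 * h := by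
  have hHt : ∀ x y, IsUnit4 (y - x) → x + y ∈ ω ∩ L →
      0 + 1 ≤ cU ε x0 y0 (el true x y) ∧ 0 + 1 ≤ cV ε x0 y0 (el true x y) := by
    intro x y _ hxy
    have := hL1 _ (mem_inter.1 hxy).2
    rw [el_true]; omega
  have hlow : ∀ x, Co (ω ∩ L) u x →
      0 ≤ cU ε x0 y0 (nd true x) ∧ 0 ≤ cV ε x0 y0 (nd true x) := fun x hx =>
    PS_low hε hHt ⟨by omega, by omega⟩ (Or.inl ⟨x, hx, rfl⟩)
  -- the highest node on the left wall
  obtain ⟨u0, hu0, hu0U, hmax⟩ : ∃ u0, Co (ω ∩ L) u u0 ∧ cU ε x0 y0 (nd true u0) = 0 ∧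
      ∀ x, Co (ω ∩ L) u x → cU ε x0 y0 (nd true x) = 0 →
        cV ε x0 y0 (nd true x) ≤ cV ε x0 y0 (nd true u0) := by
    obtain ⟨b, ⟨u0, h1, h2, h3⟩, h4⟩ := Int.exists_greatest_of_bdd
      (P := fun b => ∃ x, Co (ω ∩ L) u x ∧ cU ε x0 y0 (nd true x) = 0 ∧ cV ε x0 y0 (nd true x) = b)
      ⟨2 * h, by
        rintro z ⟨x, hx, -, hz⟩
        have := (hsm x hx).2
        omega⟩ ⟨_, u, Co.refl _ _, huU, rfl⟩
    exact ⟨u0, h1, h2, fun x hx hx0 => by
      rw [h3]; exact h4 _ ⟨x, hx, hx0, rfl⟩⟩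
  have hcl : ∀ x, Co (ω ∩ L) u0 x ↔ Co (ω ∩ L) u x :=
    fun x => ⟨fun hx => hu0.trans hx, fun hx => hu0.symm.trans hx⟩
  have hV0 := hlow u0 hu0
  have hS0 := hsm u0 hu0
  -- the corner at the left wall
  set A : ℤ × ℤ := (2 * u0.1, 2 * u0.2 + (1 + ε) / 2) with hA
  have hAv : vx A = u0 := by
    rw [hA]; unfold vx; simp only
    refine Prod.ext ?_ ?_ <;> simp only <;> rcases hε with rfl | rfl <;> omega
  have hAf : nd false (fi A) = nd true u0 + (-1, ε) := by
    rw [hA, nd_false, nd_true]; unfold fi; simp only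
    refine Prod.ext ?_ ?_ <;> simp only [Prod.fst_add, Prod.snd_add] <;>
      rcases hε with rfl | rfl <;> omega
  have hAU : cU ε x0 y0 (nd false (fi A)) = 0 := by
    rw [hAf]; unfold cU cx cy at hu0U ⊢
    simp only [Prod.fst_add, Prod.snd_add]
    rcases hε with rfl | rfl <;> omega
  have hAV : cV ε x0 y0 (nd false (fi A)) = cV ε x0 y0 (nd true u0) + 2 := by
    rw [hAf]; unfold cV cx cy
    simp only [Prod.fst_add, Prod.snd_add]
    rcases hε with rfl | rfl <;> omega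
  -- labels of a corner at a node of the cluster
  have hodd : ∀ z : ℤ × ℤ, ∀ a b : ℤ, ((a = 1 ∨ a = -1) ∧ b = 0) ∨ (a = 0 ∧ (b = 1 ∨ b = -1)) →
      ((nd true z + (a, b)).1 + (nd true z + (a, b)).2) % 2 = 1 := by
    intro z a b hab
    rw [nd_true]
    simp only [Prod.fst_add, Prod.snd_add]
    omega
  have hAl : (plab A ∉ L ∧ lab A ∈ L) ∨ (lab A ∉ L ∧ plab A ∈ L) := by
    have hout : nd true u0 + (-1, 0) ∉ L := by
      intro h1
      have := (hL1 _ h1).1
      unfold cU cx cy at this hu0U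
      simp only [Prod.fst_add, Prod.snd_add] at this
      rcases hε with rfl | rfl <;> omega
    have hin : nd true u0 + (0, ε) ∈ L := by
      refine hL2 _ (hodd u0 0 ε (Or.inr ⟨rfl, hε⟩)) ?_ ?_ ?_ ?_ <;>
      unfold cU cV cx cy at * <;>
      simp only [Prod.fst_add, Prod.snd_add, nd_true] at * <;>
      rcases hε with rfl | rfl <;> omega
    obtain ⟨s1, s2, e1, e2, e3, e4⟩ := corner_sq A
    rw [hAv] at e3 e4
    rw [hAf] at e3
    have e5 : s1 = -1 ∧ s2 = ε := by
      simp only [Prod.ext_iff, Prod.fst_add, Prod.snd_add] at e3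
      omega
    rw [e5.1, e5.2] at e4
    rcases e4 with ⟨e6, e7⟩ | ⟨e6, e7⟩
    · right; rw [e6, e7]; exact ⟨hout, hin⟩
    · left; rw [e6, e7]; exact ⟨hout, hin⟩
  obtain ⟨B, hBA, hBl, hBv, hBf⟩ := walk (ω := ω) hAl
  rw [hAv] at hBv
  have hvB : Co (ω ∩ L) u (vx B) := hu0.trans hBv
  have hlB := hlow _ hvB
  have hsB := hsm _ hvB
  obtain ⟨s1, s2, e1, e2, e3, e4⟩ := corner_sq B
  -- the outer and the inner label
  have hio : ∃ a b c d : ℤ, nd true (vx B) + (a, b) ∉ L ∧ nd true (vx B) + (c, d) ∈ L ∧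
      ((a = s1 ∧ b = 0 ∧ c = 0 ∧ d = s2) ∨ (a = 0 ∧ b = s2 ∧ c = s1 ∧ d = 0)) := by
    rcases e4 with ⟨e6, e7⟩ | ⟨e6, e7⟩ <;> rcases hBl with ⟨e8, e9⟩ | ⟨e8, e9⟩ <;>
      rw [e6] at * <;> rw [e7] at *
    · exact ⟨0, s2, s1, 0, e8, e9, Or.inr ⟨rfl, rfl, rfl, rfl⟩⟩
    · exact ⟨s1, 0, 0, s2, e8, e9, Or.inl ⟨rfl, rfl, rfl, rfl⟩⟩
    · exact ⟨s1, 0, 0, s2, e8, e9, Or.inl ⟨rfl, rfl, rfl, rfl⟩⟩
    · exact ⟨0, s2, s1, 0, e8, e9, Or.inr ⟨rfl, rfl, rfl, rfl⟩⟩
  obtain ⟨a, b, c, d, hout, hin, habcd⟩ := hio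
  have hin' := hL1 _ hin
  have hout' : cU ε x0 y0 (nd true (vx B) + (a, b)) < 1 ∨
      cV ε x0 y0 (nd true (vx B) + (a, b)) < 1 := by
    by_contra hcon
    push Not at hcon
    refine hout (hL2 _ (hodd (vx B) a b (by omega)) hcon.1 hcon.2 ?_ ?_)
    · unfold cU cV cx cy at *
      simp only [Prod.fst_add, Prod.snd_add, nd_true] at *
      rcases hε with rfl | rfl <;> omega
    · unfold cU cV cx cy at *
      simp only [Prod.fst_add, Prod.snd_add, nd_true] at *
      rcases hε with rfl | rfl <;> omega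
  -- the face of `B`
  have hBcases : (cU ε x0 y0 (nd false (fi B)) = 0 ∧ cU ε x0 y0 (nd true (vx B)) = 0 ∧
      (cV ε x0 y0 (nd false (fi B)) = cV ε x0 y0 (nd true (vx B)) - 2 ∨
        cV ε x0 y0 (nd false (fi B)) = cV ε x0 y0 (nd true (vx B)) + 2)) ∨
      (cV ε x0 y0 (nd false (fi B)) = 0 ∧ cV ε x0 y0 (nd true (vx B)) = 0) := by
    rw [e3]
    unfold cU cV cx cy at *
    simp only [Prod.fst_add, Prod.snd_add, nd_true] at *
    rcases hε with rfl | rfl <;> omega
  have hcross : ∀ x, Co (ω ∩ L) u x → cV ε x0 y0 (nd true x) = 0 →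
      ¬ ((cU ε x0 y0 (nd false (fi B)) = 0 ∧
        cV ε x0 y0 (nd false (fi B)) < cV ε x0 y0 (nd true u0)) ∨
      (cV ε x0 y0 (nd false (fi B)) = 0 ∧
        cU ε x0 y0 (nd false (fi B)) < cU ε x0 y0 (nd true x))) := by
    intro x hx hxV hcon
    exact wall_cross hε hL1 hu0U hV0.2 (fun y hy hyU => hmax y (hu0.trans hy) hyU)
      ((hcl x).2 hx) hxV hAU hAV hBf hcon
  have hfl : cV ε x0 y0 (nd false (fi B)) = 0 := by
    rcases hBcases with ⟨h1, h2, h3⟩ | ⟨h1, h2⟩
    · exfalso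
      have h4 := hmax _ hvB h2
      have h5 := hcross t hut ht
      apply h5
      left
      refine ⟨h1, ?_⟩
      rcases h3 with h3 | h3
      · omega
      · -- the face is above the vertex: then `B = A` or the vertex is lower
        by_contra hcon
        apply hBA
        have h6 : cV ε x0 y0 (nd true (vx B)) = cV ε x0 y0 (nd true u0) := by
          unfold cU cV cx cy at *
          simp only [Prod.fst_add, Prod.snd_add, nd_true] at *
          rcases hε with rfl | rfl <;> omega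
        have h7 : vx B = u0 := by
          unfold cU cV cx cy at *
          simp only [Prod.fst_add, Prod.snd_add, nd_true, Prod.ext_iff] at *
          rcases hε with rfl | rfl <;> omega
        have h8 : fi B = fi A := by
          have h9 : nd false (fi B) = nd false (fi A) := by
            refine chart_inj (x0 := x0) (y0 := y0) hε ?_
            have a1 := hAU
            have a2 := hAV
            rw [h6] at h3
            rw [← h3] at a2
            unfold cU at a1 h1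
            unfold cV at a2
            refine Prod.ext ?_ ?_ <;> simp only <;> omega
          exact nd_inj h9
        rw [← corner_eq B, ← corner_eq A, h7, h8, hAv]
    · exact h1
  refine ⟨fi A, fi B, hBf, hAU, hfl, ?_, ?_, ?_, ?_⟩
  · intro x hx hxU
    have := hmax x hx hxU
    omega
  · intro x hx hxV
    by_contra hcon
    push Not at hcon
    apply hcross x hx hxV
    right
    refine ⟨hfl, lt_of_le_of_ne hcon ?_⟩
    intro h3
    have h4 : nd false (fi B) = nd true x := by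
      refine chart_inj (x0 := x0) (y0 := y0) hε ?_
      unfold cU at h3
      unfold cV at hfl hxV
      refine Prod.ext ?_ ?_ <;> simp only <;> omega
    exact nd_ne (by decide) h4
  · rw [hAV]
    unfold cU cV cx cy at *
    simp only [nd_true] at *
    rcases hε with rfl | rfl <;> omega
  · rw [e3] at hfl ⊢
    unfold cU cV cx cy at *
    simp only [Prod.fst_add, Prod.snd_add, nd_true] at *
    rcases hε with rfl | rfl <;> omega

/-! ### The other colour -/

lemma cU_sh (z : ℤ × ℤ) : cU ε (x0 + 1) (y0 + 1) (z + (1, 1)) = cU ε x0 y0 z := by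
  unfold cU cx cy; simp only [Prod.fst_add, Prod.snd_add]; ring

lemma cV_sh (z : ℤ × ℤ) : cV ε (x0 + 1) (y0 + 1) (z + (1, 1)) = cV ε x0 y0 z := by
  unfold cV cx cy; simp only [Prod.fst_add, Prod.snd_add]; ring

lemma nd_sh (x : ℤ × ℤ) : nd true x = nd false x + (1, 1) := by
  rw [nd_true, nd_false]; refine Prod.ext ?_ ?_ <;> simp

lemma nd_sh' (x : ℤ × ℤ) : nd false (x + (1, 1)) = nd true x + (1, 1) := by
  rw [nd_true, nd_false]
  refine Prod.ext ?_ ?_ <;> simp only [Prod.fst_add, Prod.snd_add] <;> ring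

/-- **A cluster at a corner is surrounded by a path of the other colour.** -/
theorem surround (hε : ε = 1 ∨ ε = -1) {c c' : Bool} (hc : c ≠ c')
    (hL1 : ∀ l ∈ L, 1 ≤ cU ε x0 y0 l ∧ 1 ≤ cV ε x0 y0 l)
    (hL2 : ∀ l : ℤ × ℤ, (l.1 + l.2) % 2 = 1 → 1 ≤ cU ε x0 y0 l → 1 ≤ cV ε x0 y0 l →
      cU ε x0 y0 l < 2 * h → cV ε x0 y0 l < 2 * h → l ∈ L) {u t : ℤ × ℤ}
    (huU : cU ε x0 y0 (nd c u) = 0) (huV : 0 ≤ cV ε x0 y0 (nd c u))
    (hut : Co (HS c L ω) u t) (ht : cV ε x0 y0 (nd c t) = 0)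
    (hsm : ∀ x, Co (HS c L ω) u x → cU ε x0 y0 (nd c x) < 2 * h ∧
      cV ε x0 y0 (nd c x) < 2 * h) :
    ∃ g f, Co (HS c' L ω) g f ∧ cU ε x0 y0 (nd c' g) = 0 ∧ cV ε x0 y0 (nd c' f) = 0 ∧
      (∀ x, Co (HS c L ω) u x → cU ε x0 y0 (nd c x) = 0 →
        cV ε x0 y0 (nd c x) < cV ε x0 y0 (nd c' g)) ∧
      (∀ x, Co (HS c L ω) u x → cV ε x0 y0 (nd c x) = 0 →
        cU ε x0 y0 (nd c x) < cU ε x0 y0 (nd c' f)) ∧
      cV ε x0 y0 (nd c' g) ≤ 2 * h ∧ cU ε x0 y0 (nd c' f) ≤ 2 * h := by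
  rcases c with _ | _
  · -- `c = false`
    have hc' : c' = true := by rcases c' with _ | _ <;> simp at hc ⊢
    subst hc'
    have e1 : HS false L ω = du L ω := by unfold HS; rw [if_neg (by decide)]
    have e2 : HS true L ω = ω ∩ L := by unfold HS; rw [if_pos rfl]
    rw [e1] at hut hsm ⊢
    rw [e2]
    set L' : Finset (ℤ × ℤ) := L.map sh1 with hL'
    have hmL' : ∀ l : ℤ × ℤ, l + (1, 1) ∈ L' ↔ l ∈ L := by
      intro l
      rw [hL', mem_map]
      constructor
      · rintro ⟨a, ha, hb⟩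
        have : a = l := by
          have e := congrArg Prod.fst hb
          have e' := congrArg Prod.snd hb
          simp only [sh1, Function.Embedding.coeFn_mk, Prod.fst_add, Prod.snd_add] at e e'
          exact Prod.ext (by omega) (by omega)
        rw [← this]; exact ha
      · intro hl
        exact ⟨l, hl, by refine Prod.ext ?_ ?_ <;> simp [sh1]⟩
    have hsub : du L ω ∩ L' = du L ω := by
      refine inter_eq_left.2 ?_
      unfold du
      exact map_subset_map.2 sdiff_subset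
    have hback : ∀ l : ℤ × ℤ, l = (l - (1, 1)) + (1, 1) := fun l => by simp
    have h3 := surround_true (ω := du L ω) (L := L') (x0 := x0 + 1) (y0 := y0 + 1) (h := h)
      (u := u) (t := t) hε
      (by
        intro l hl
        rw [hback l] at hl ⊢
        rw [hmL'] at hl
        rw [cU_sh, cV_sh]
        exact hL1 _ hl)
      (by
        intro l ho a1 a2 a3 a4
        rw [hback l] at a1 a2 a3 a4 ⊢
        rw [cU_sh] at a1 a3
        rw [cV_sh] at a2 a4
        rw [hmL']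
        refine hL2 _ ?_ a1 a2 a3 a4
        simp only [Prod.fst_sub, Prod.snd_sub]; omega)
      (by rw [nd_sh, cU_sh]; exact huU) (by rw [nd_sh, cV_sh]; exact huV)
      (by rw [hsub]; exact hut) (by rw [nd_sh, cV_sh]; exact ht)
      (by
        intro x hx
        rw [hsub] at hx
        rw [nd_sh, cU_sh, cV_sh]
        exact hsm x hx)
    rw [hsub] at h3
    obtain ⟨g, f, h4, h5, h6, h7, h8, h20, h21⟩ := h3
    have hmd : ∀ l : ℤ × ℤ, l + (1, 1) + (1, 1) ∈ du L' (du L ω) ↔ l ∈ ω ∩ L := by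
      intro l
      have e3 : l + (1, 1) + (1, 1) ∈ du L' (du L ω) ↔ l + (1, 1) ∈ L' \ du L ω := by
        unfold du
        rw [mem_map]
        constructor
        · rintro ⟨a, ha, hb⟩
          have : a = l + (1, 1) := by
            have e := congrArg Prod.fst hb
            have e' := congrArg Prod.snd hb
            simp only [sh1, Function.Embedding.coeFn_mk, Prod.fst_add, Prod.snd_add] at e e'
            refine Prod.ext ?_ ?_ <;> simp only [Prod.fst_add, Prod.snd_add] <;> omega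
          rw [← this]; exact ha
        · intro hl
          exact ⟨_, hl, by refine Prod.ext ?_ ?_ <;> simp [sh1]⟩
      rw [e3, mem_sdiff, hmL', mem_inter]
      constructor
      · rintro ⟨h9, h10⟩
        refine ⟨?_, h9⟩
        by_contra h11
        apply h10
        unfold du
        rw [mem_map]
        exact ⟨l, mem_sdiff.2 ⟨h9, h11⟩, by refine Prod.ext ?_ ?_ <;> simp [sh1]⟩
      · rintro ⟨h9, h10⟩
        refine ⟨h10, fun h11 => ?_⟩
        unfold du at h11
        rw [mem_map] at h11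
        obtain ⟨a, ha, hb⟩ := h11
        have : a = l := by
          have e := congrArg Prod.fst hb
          have e' := congrArg Prod.snd hb
          simp only [sh1, Function.Embedding.coeFn_mk, Prod.fst_add, Prod.snd_add] at e e'
          exact Prod.ext (by omega) (by omega)
        rw [this] at ha
        exact (mem_sdiff.1 ha).2 h9
    have h9 : Co (ω ∩ L) (g - (1, 1)) (f - (1, 1)) := by
      refine rtg_map (r := Ad (du L' (du L ω))) (fun z : ℤ × ℤ => z - (1, 1)) ?_ h4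
      rintro a b ⟨hab, hm⟩
      refine ⟨?_, ?_⟩
      · rw [sub_sub_sub_cancel_right]; exact hab
      · rw [← hmd]
        have : a - (1, 1) + (b - (1, 1)) + (1, 1) + (1, 1) = a + b := by
          refine Prod.ext ?_ ?_ <;> simp only [Prod.fst_add, Prod.snd_add, Prod.fst_sub,
            Prod.snd_sub] <;> ring
        rw [this]; exact hm
    have hn : ∀ z : ℤ × ℤ, nd false z = nd true (z - (1, 1)) + (1, 1) := fun z => by
      rw [← nd_sh']; simp
    rw [hn, cU_sh] at h5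
    rw [hn, cV_sh] at h6
    rw [hn, cV_sh] at h20
    rw [hn, cU_sh] at h21
    refine ⟨g - (1, 1), f - (1, 1), h9, h5, h6, ?_, ?_, h20, h21⟩
    · intro x hx hx0
      have := h7 x hx (by rw [nd_sh, cU_sh]; exact hx0)
      rw [nd_sh, cV_sh, hn g, cV_sh] at this
      exact this
    · intro x hx hx0
      have := h8 x hx (by rw [nd_sh, cV_sh]; exact hx0)
      rw [nd_sh, cU_sh, hn f, cU_sh] at this
      exact this
  · have hc' : c' = false := by rcases c' with _ | _ <;> simp at hc ⊢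
    subst hc'
    have e1 : HS false L ω = du L ω := by unfold HS; rw [if_neg (by decide)]
    have e2 : HS true L ω = ω ∩ L := by unfold HS; rw [if_pos rfl]
    rw [e2] at hut hsm ⊢
    rw [e1]
    exact surround_true hε hL1 hL2 huU huV hut ht hsm

end chart

end Pool.Agent.H2.Q1
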